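import Pool.Agent.H36.Rst2

open Pool.Agent.H38.NP Pool.Agent.H36.Rst

theorem Pool.Agent.Results.MP_f1b42c_lc.PolyTime.result :
    ∃ f, PolyTime f ∧ ∀ (n m : ℕ) (δ : Fin m → Fin n → Fin n), 0 < n → Primitive δ →
      ∃ α : Fin m → ℕ, f (enc (tables δ)) = enc (List.ofFn fun i => Bin.mk (α i)) ∧ Reset δ α := by
  obtain ⟨f, hf, e⟩ := pt_out.polyTimeOn fun _ => True
  refine ⟨f, hf, fun n m δ hn h => ?_⟩
  have hm : 0 < m := by
    obtain ⟨α, h, -⟩ := h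
    cases m <;> simp at h ⊢
  refine ⟨fun _ => 2 ^ ex n m, by rw [e _ trivial, out_eq δ hm], ?_, ⟨0, hn⟩, fun p => main δ hn h le_rfl p _⟩
  rw [Finset.sum_const, Finset.card_univ, Fintype.card_fin]
  exact Nat.mul_pos hm (by positivity)
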